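import Pool.Agent.helper28.LT.Defs
import Pool.Agent.helper14.LT.JA

set_option autoImplicit false

/-!
# Lower bound for the number of points of one fibre
-/

namespace Pool.Agent.helper28.LT

open Finset NumberField Pool.Agent.helper3.FT Pool.Agent.helper47.RA

theorem FL_dvd {n k α β γ : ℤ} (hr : ResQ n k 1 α β γ) (m g z : ℤ)
    (h : n ^ 3 * k ∣ z - (α * m ^ 2 + β * m * g + γ * g ^ 2)) :
    n ^ 3 ∣ z * k ^ 4 + m * g * k ^ 2 - g ^ 2 * n ^ 2 ∧ k ∣ m ^ 2 - z * n ^ 2 := by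
  obtain ⟨a, ha⟩ := hr.hα
  obtain ⟨b, hb⟩ := hr.hβ
  obtain ⟨c, hc⟩ := hr.hγ
  obtain ⟨a', ha'⟩ := hr.kα
  obtain ⟨b', hb'⟩ := hr.kβ
  obtain ⟨c', hc'⟩ := hr.kγ
  obtain ⟨t, ht⟩ := h
  constructor
  · refine ⟨k ^ 5 * t + a * m ^ 2 * k ^ 4 + b * k ^ 2 * m * g + c * g ^ 2, ?_⟩
    linear_combination k ^ 4 * ht + m ^ 2 * k ^ 4 * ha + k ^ 2 * m * g * hb + g ^ 2 * hc
  · refine ⟨-(n ^ 5 * t) - a' * m ^ 2 - b' * n ^ 2 * m * g - c' * n ^ 2 * g ^ 2, ?_⟩
    linear_combination -n ^ 2 * ht - m ^ 2 * ha' - n ^ 2 * m * g * hb' - n ^ 2 * g ^ 2 * hc'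

lemma FL_norm_e (x : ℝ) : ‖e x‖ = 1 := by
  unfold e
  rw [show (2 * (Real.pi : ℂ) * Complex.I * (x : ℂ)) = ((2 * Real.pi * x : ℝ) : ℂ) * Complex.I by
    push_cast; ring]
  exact Complex.norm_exp_ofReal_mul_I _

lemma FL_e_add (x y : ℝ) : e (x + y) = e x * e y := by
  unfold e
  rw [← Complex.exp_add]
  congr 1
  push_cast
  ring

/-- FL (from RE2, JA) -/
theorem fib_low (n k M P W H : ℕ) (hn : 1 ≤ n) (hk : 1 ≤ k) (hcop : Nat.Coprime n k)
    (hW : 1 ≤ W) (hWq : W < n ^ 3 * k) (hH : 2 * (n ^ 3 * k) ≤ H * W)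
    (α β γ : ℤ) (hr : ResQ n k 1 α β γ) (r r' c : ℤ) :
    (((cls M P r).card * (cls M P r').card : ℕ) : ℝ) / (2 * H) -
      4 / H * ∑ h ∈ Ico 1 (2 * H), ‖ESc M M P r r' (h * α / ((n : ℝ) ^ 3 * k))
        (h * β / ((n : ℝ) ^ 3 * k)) (h * γ / ((n : ℝ) ^ 3 * k))‖ ≤
      ((fib 1 P M M r r' c W n k).card : ℝ) := by
  classical
  have hc : IsCoprime (n : ℤ) k := Nat.isCoprime_iff_coprime.2 hcop
  have hnR : (0 : ℝ) < n := by exact_mod_cast hn
  have hkR : (0 : ℝ) < k := by exact_mod_cast hk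
  have hWR : (0 : ℝ) < W := by exact_mod_cast hW
  have hqR : (0 : ℝ) < (n : ℝ) ^ 3 * k := by positivity
  have hWqR : (W : ℝ) < (n : ℝ) ^ 3 * k := by exact_mod_cast hWq
  have hHR : 2 * ((n : ℝ) ^ 3 * k) ≤ H * W := by exact_mod_cast hH
  set q₀ : ℝ := (n : ℝ) ^ 3 * k with hq₀
  set δ : ℝ := W / (2 * q₀) with hδ
  have hδ0 : 0 < δ := by positivity
  have hδ1 : δ ≤ 1 / 2 := by
    rw [hδ, div_le_div_iff₀ (by positivity) (by norm_num)]
    linarith
  have hHδ : 1 ≤ H * δ := by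
    rw [hδ, ← mul_div_assoc, le_div_iff₀ (by positivity)]
    linarith
  set φ : ℤ × ℤ → ℤ := fun p => α * p.1 ^ 2 + β * p.1 * p.2 + γ * p.2 ^ 2 with hφ
  set x : ℤ × ℤ → ℝ := fun p => ((φ p : ℝ) - c - W / 2) / q₀ with hx
  set s := cls M P r ×ˢ cls M P r' with hs
  have hJ := jackson s x δ H hδ0 hδ1 hHδ
  have hES : ∀ h ∈ Ico 1 (2 * H), ‖∑ i ∈ s, e (h * x i)‖
      = ‖ESc M M P r r' (h * α / q₀) (h * β / q₀) (h * γ / q₀)‖ := by
    intro h _
    have h1 : ∑ i ∈ s, e (h * x i) = e (-(h * (c + W / 2) / q₀)) *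
        ESc M M P r r' (h * α / q₀) (h * β / q₀) (h * γ / q₀) := by
      unfold ESc
      rw [hs, Finset.sum_product, Finset.mul_sum]
      refine Finset.sum_congr rfl (fun m _ => ?_)
      rw [Finset.mul_sum]
      refine Finset.sum_congr rfl (fun g _ => ?_)
      rw [← FL_e_add]
      congr 1
      simp only [hx, hφ]
      push_cast
      field_simp
      ring
    rw [h1, norm_mul, FL_norm_e, one_mul]
  rw [Finset.sum_congr rfl hES] at hJ
  have hcard : s.card = (cls M P r).card * (cls M P r').card := by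
    rw [hs, Finset.card_product]
  rw [hcard] at hJ
  refine hJ.trans ?_
  have hle : (s.filter (fun i => nd (x i) ≤ δ)).card ≤ (fib 1 P M M r r' c W n k).card := by
    refine Finset.card_le_card_of_injOn
      (fun p => (p.1, p.2, φ p - round (x p) * ((n : ℤ) ^ 3 * k))) ?_ ?_
    · intro p hp
      simp only [Finset.coe_filter, Set.mem_ofPred_eq, hs, Finset.mem_product] at hp
      obtain ⟨⟨hp1, hp2⟩, hp3⟩ := hp
      have h1 : |x p - round (x p)| ≤ δ := hp3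
      have h2 : |(φ p : ℝ) - c - W / 2 - round (x p) * q₀| ≤ W / 2 := by
        have h3 : (φ p : ℝ) - c - W / 2 - round (x p) * q₀ = (x p - round (x p)) * q₀ := by
          simp only [hx]
          field_simp
        rw [h3, abs_mul, abs_of_pos hqR]
        calc |x p - round (x p)| * q₀ ≤ δ * q₀ := by gcongr
          _ = W / 2 := by
            rw [hδ]
            field_simp
      obtain ⟨h4, h5⟩ := abs_le.1 h2
      set z : ℤ := φ p - round (x p) * ((n : ℤ) ^ 3 * k) with hz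
      have hzR : (z : ℝ) = φ p - round (x p) * q₀ := by
        rw [hz, hq₀]
        push_cast
        ring
      have h6 : c ≤ z := by
        have : (c : ℝ) ≤ z := by rw [hzR]; linarith
        exact_mod_cast this
      have h7 : z ≤ c + W := by
        have : (z : ℝ) ≤ c + W := by rw [hzR]; linarith
        exact_mod_cast this
      have h8 : (n : ℤ) ^ 3 * k ∣ z - (α * p.1 ^ 2 + β * p.1 * p.2 + γ * p.2 ^ 2) :=
        ⟨-round (x p), by rw [hz, hφ]; ring⟩
      have h9 := FL_dvd hr p.1 p.2 z h8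
      simp only [fib, Finset.coe_filter, Set.mem_ofPred_eq, Finset.mem_product, Finset.mem_Icc]
      refine ⟨⟨hp1, hp2, h6, h7⟩, ?_, ?_⟩
      · simpa using h9.1
      · simpa using h9.2
    · intro p _ p' _ he
      simp only [Prod.mk.injEq] at he
      exact Prod.ext he.1 he.2.1
  exact_mod_cast hle

end Pool.Agent.helper28.LT
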